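import Pool.Agent.Helper57.Tri.Core
import Pool.Agent.Helper57.Tri.Fat

/-! # Linear hypergraphs of incidence dimension at most 3 are intersection hypergraphs of triangles -/

set_option autoImplicit false

namespace Pool.Agent.Results.MP_425fdd_co.Full

/-- A hypergraph on the vertex set `V` is given by its set `E` of edges. It is simple if all edges are nonempty,
no edge is contained in another edge, and every vertex belongs to an edge. -/
structure IsSimple {V : Type} (E : Set (Set V)) : Prop where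
  nonempty : ∀ e ∈ E, e.Nonempty
  antichain : ∀ e ∈ E, ∀ f ∈ E, e ⊆ f → e = f
  cover : ∀ v : V, ∃ e ∈ E, v ∈ e

/-- Two distinct edges have at most one common vertex. -/
def IsLinear {V : Type} (E : Set (Set V)) : Prop :=
  ∀ e ∈ E, ∀ f ∈ E, e ≠ f → (e ∩ f).Subsingleton

/-- The order `x ≤ y` of the incidence poset, on the disjoint union of vertices and edges:
`v < e` exactly when `v ∈ e`, and no other strict relations. -/
def incLE {V : Type} (E : Set (Set V)) : V ⊕ E → V ⊕ E → Prop
  | .inl v, .inl w => v = w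
  | .inl v, .inr e => v ∈ (e : Set V)
  | .inr e, .inr f => e = f
  | .inr _, .inl _ => False

/-- The numbers `t` such that the order `r` is the intersection of `t` linear extensions of `r`. -/
def realizerSizes {α : Type} (r : α → α → Prop) : Set ℕ :=
  {t : ℕ | ∃ L : Fin t → LinearOrder α, (∀ i a b, r a b → (L i).le a b) ∧
    ∀ a b, (∀ i, (L i).le a b) → r a b}

/-- The dimension of the incidence poset: the least `t` such that it is the intersection of `t` linear
extensions. -/
noncomputable def incDim {V : Type} (E : Set (Set V)) : ℕ :=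
  sInf (realizerSizes (incLE E))

/-- The closed convex hull of three non-collinear points of the Euclidean plane. -/
def IsTriangle (T : Set (EuclideanSpace ℝ (Fin 2))) : Prop :=
  ∃ a b c : EuclideanSpace ℝ (Fin 2), ¬ Collinear ℝ ({a, b, c} : Set (EuclideanSpace ℝ (Fin 2))) ∧
    T = convexHull ℝ ({a, b, c} : Set (EuclideanSpace ℝ (Fin 2)))

private theorem dim_le {V : Type} [Finite V] (E : Set (Set V)) (h : incDim E ≤ 3) :
    ∃ t ≤ 3, t ∈ realizerSizes (incLE E) := by
  refine ⟨incDim E, h, Nat.sInf_mem ?_⟩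
  obtain ⟨t, L, h1, h2⟩ := Pool.Agent.Tri.exists_realizer (incLE E)
    (by rintro (v | e) <;> simp [incLE])
    (by rintro (v | e) (w | f) (z | g) <;> simp only [incLE] <;> intro h1 h2 <;> simp_all)
    (by rintro (v | e) (w | f) <;> simp only [incLE] <;> intro h1 h2 <;> simp_all)
  exact ⟨t, L, h1, h2⟩

/-- three linear orders, unless there is no vertex -/
private theorem three {V : Type} [Finite V] [Nonempty V] (E : Set (Set V)) (hc : ∀ v : V, ∃ e ∈ E, v ∈ e)
    (h : incDim E ≤ 3) :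
    ∃ L : Fin 3 → LinearOrder (V ⊕ E), ∀ a b, incLE E a b ↔ ∀ i, (L i).le a b := by
  obtain ⟨t, ht, L, h1, h2⟩ := dim_le E h
  rcases Nat.eq_zero_or_pos t with rfl | h0
  · exfalso
    obtain ⟨v⟩ := (inferInstance : Nonempty V)
    obtain ⟨e, he, -⟩ := hc v
    have := h2 (.inr ⟨e, he⟩) (.inl v) (fun i => i.elim0)
    simp [incLE] at this
  · refine ⟨fun i => L ⟨min i.1 (t - 1), by omega⟩, fun a b => ⟨fun h i => h1 _ a b h, fun h => h2 a b fun j => ?_⟩⟩
    have h4 : (⟨min j.1 (t - 1), by omega⟩ : Fin t) = j := Fin.ext (by simp only; omega)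
    have h3 : (L ⟨min j.1 (t - 1), by omega⟩).le a b := h ⟨j.1, by omega⟩
    rwa [h4] at h3

/-- **Theorem.** Every simple linear hypergraph on a finite vertex set whose incidence poset has dimension at
most `3` is the intersection hypergraph of a family of triangles in the plane. -/
theorem result (V : Type) [Finite V] (E : Set (Set V)) (hs : IsSimple E) (hl : IsLinear E)
    (hdim : incDim E ≤ 3) :
    ∃ S : V → Set (EuclideanSpace ℝ (Fin 2)),
      (∀ v, IsTriangle (S v)) ∧
      (∀ U : Set V, U ∈ E ↔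
        (U.Nonempty ∧ Maximal (fun W : Set V => (⋂ v ∈ W, S v).Nonempty) U)) ∧
      (Nonempty V → ∀ U : Set V, U ∈ E ↔ Maximal (fun W : Set V => (⋂ v ∈ W, S v).Nonempty) U) := by
  classical
  rcases isEmpty_or_nonempty V with hV | hV
  · refine ⟨fun v => (hV.false v).elim, fun v => (hV.false v).elim, fun U => ⟨fun hU => ?_, fun hU => ?_⟩,
      fun h => (not_isEmpty_of_nonempty V hV).elim⟩
    · obtain ⟨v, -⟩ := hs.nonempty U hU
      exact (hV.false v).elim
    · obtain ⟨v, -⟩ := hU.1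
      exact (hV.false v).elim
  have : Fintype V := Fintype.ofFinite V
  obtain ⟨L, hL⟩ := three E hs.cover hdim
  choose ρ hρ1 hρ2 using fun i => Pool.Agent.Tri.exists_rank (L i)
  let E' : Finset (Finset V) := Finset.univ.filter fun s => (s : Set V) ∈ E
  have hE' : ∀ s : Finset V, s ∈ E' ↔ (s : Set V) ∈ E := by
    intro s; simp [E']
  let f : Fin 3 → V → ℕ := fun i v => ρ i (.inl v)
  let g : Fin 3 → Finset V → ℕ := fun i s => if h : (s : Set V) ∈ E then ρ i (.inr ⟨(s : Set V), h⟩) else 0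
  have hg : ∀ i (s : Finset V) (h : (s : Set V) ∈ E), g i s = ρ i (.inr ⟨(s : Set V), h⟩) := by
    intro i s h
    exact dif_pos h
  have hle : ∀ a b, incLE E a b ↔ ∀ i, ρ i a ≤ ρ i b := by
    intro a b
    rw [hL]
    refine forall_congr' fun i => ⟨fun h => ?_, fun h => ?_⟩
    · by_contra hc
      exact (hρ2 i b a).1 (not_le.1 hc) h
    · by_contra hc
      exact absurd ((hρ2 i b a).2 hc) (not_lt.2 h)
  have hlt : ∀ a b, a ≠ b → ((∀ i, ρ i a < ρ i b) ↔ incLE E a b) := by
    intro a b hab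
    rw [hle]
    refine forall_congr' fun i => ⟨le_of_lt, fun h => lt_of_le_of_ne h fun h' => hab (hρ1 i h')⟩
  obtain ⟨S, hS1, hS2, hS3⟩ := Pool.Agent.Tri.core V E'
    (by
      intro e he
      have := hs.nonempty _ ((hE' e).1 he)
      exact_mod_cast this)
    (by
      intro e he f hf hef
      have := hs.antichain _ ((hE' e).1 he) _ ((hE' f).1 hf) (by exact_mod_cast hef)
      exact_mod_cast this)
    (by
      intro v
      obtain ⟨e, he, hv⟩ := hs.cover v
      exact ⟨e.toFinite.toFinset, (hE' _).2 (by rw [Set.Finite.coe_toFinset]; exact he),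
        (Set.Finite.mem_toFinset _).2 hv⟩)
    (by
      intro e he f hf hef
      have h1 := hl _ ((hE' e).1 he) _ ((hE' f).1 hf) (by exact_mod_cast hef)
      rw [Finset.card_le_one]
      intro a ha b hb
      rw [Finset.mem_inter] at ha hb
      exact h1 ⟨ha.1, ha.2⟩ ⟨hb.1, hb.2⟩)
    ⟨f, g,
      fun i v w h => by
        have := hρ1 i h
        simpa using this,
      fun i e he e' he' h => by
        rw [hg i e ((hE' e).1 he), hg i e' ((hE' e').1 he')] at h
        have := hρ1 i h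
        simpa using this,
      fun i v e he h => by
        rw [hg i e ((hE' e).1 he)] at h
        have := hρ1 i h
        simp at this,
      fun v w hvw h => by
        have h1 := (hlt (.inl v) (.inl w) (by simpa using hvw)).1 h
        exact hvw h1,
      fun e he e' he' hne h => by
        simp only [hg _ e ((hE' e).1 he), hg _ e' ((hE' e').1 he')] at h
        have h1 := (hlt _ _ (by simpa using hne)).1 h
        simp only [incLE, Subtype.mk.injEq, Finset.coe_inj] at h1
        exact hne h1,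
      fun v e he => by
        simp only [hg _ e ((hE' e).1 he)]
        refine ⟨?_, fun h => ?_⟩
        · rw [hlt _ _ (by simp)]
          simp [incLE]
        · have h1 := (hlt _ _ (by simp)).1 h
          exact h1⟩
  -- all sets are compact and nonempty
  have hcpt : ∀ v, IsCompact (S v) := by
    intro v
    rcases hS1 v with ⟨a, b, c, -, h⟩ | ⟨a, b, -, h⟩
    · rw [h]; exact (Set.toFinite _).isCompact_convexHull ℝ
    · rw [h, ← convexHull_pair]; exact (Set.toFinite _).isCompact_convexHull ℝ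
  have hne : ∀ v, (S v).Nonempty := by
    intro v
    rcases hS1 v with ⟨a, b, c, -, h⟩ | ⟨a, b, -, h⟩
    · rw [h]; exact ⟨a, subset_convexHull ℝ _ (by simp)⟩
    · rw [h]; exact ⟨a, left_mem_segment ℝ _ _⟩
  obtain ⟨δ, hδ, hδ'⟩ := Pool.Agent.Tri.exists_cthick S hcpt (fun v => (hcpt v).isClosed) hne
  have hT : ∀ v, ∃ T : Set (ℝ × ℝ), (∃ a b c : ℝ × ℝ, ¬ Collinear ℝ ({a, b, c} : Set (ℝ × ℝ)) ∧
      T = convexHull ℝ ({a, b, c} : Set (ℝ × ℝ))) ∧ S v ⊆ T ∧ T ⊆ Metric.cthickening δ (S v) := by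
    intro v
    rcases hS1 v with ⟨a, b, c, h0, h⟩ | ⟨a, b, h0, h⟩
    · exact ⟨S v, ⟨a, b, c, h0, h⟩, subset_rfl, Metric.self_subset_cthickening _⟩
    · obtain ⟨c, h1, h2, h3⟩ := Pool.Agent.Tri.exists_tri h0 hδ
      exact ⟨_, ⟨a, b, c, h1, rfl⟩, by rw [h]; exact h2, by rw [h]; exact h3⟩
  choose T hT1 hT2 hT3 using hT
  -- the linear equivalence with the Euclidean plane
  let φ : (ℝ × ℝ) ≃ₗ[ℝ] EuclideanSpace ℝ (Fin 2) :=
    (LinearEquiv.finTwoArrow ℝ ℝ).symm.trans (WithLp.linearEquiv 2 ℝ (Fin 2 → ℝ)).symm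
  have hφ : ∀ W : Set V, (⋂ v ∈ W, φ '' T v).Nonempty ↔ (⋂ v ∈ W, T v).Nonempty := by
    intro W
    constructor
    · rintro ⟨y, hy⟩
      refine ⟨φ.symm y, Set.mem_iInter₂.2 fun v hv => ?_⟩
      obtain ⟨x, hx, rfl⟩ := Set.mem_iInter₂.1 hy v hv
      simpa using hx
    · rintro ⟨x, hx⟩
      exact ⟨φ x, Set.mem_iInter₂.2 fun v hv => ⟨x, Set.mem_iInter₂.1 hx v hv, rfl⟩⟩
  have hcon : ∀ W : Set V, W.Nonempty → (⋂ v ∈ W, T v).Nonempty → ∃ e ∈ E, W ⊆ e := by
    intro W hW h
    obtain ⟨x, hx⟩ := h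
    have h1 : W.toFinite.toFinset.Nonempty := (Set.Finite.toFinset_nonempty _).2 hW
    obtain ⟨e, he, hWe⟩ := hS3 W.toFinite.toFinset h1 (hδ' _ h1 ⟨x, Set.mem_iInter₂.2 fun v hv =>
      hT3 v (Set.mem_iInter₂.1 hx v ((Set.Finite.mem_toFinset _).1 hv))⟩)
    refine ⟨(e : Set V), (hE' e).1 he, fun v hv => ?_⟩
    exact_mod_cast hWe ((Set.Finite.mem_toFinset _).2 hv)
  have hpt : ∀ e ∈ E, (⋂ v ∈ e, T v).Nonempty := by
    intro e he
    obtain ⟨x, hx⟩ := hS2 e.toFinite.toFinset ((hE' _).2 (by rw [Set.Finite.coe_toFinset]; exact he))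
    exact ⟨x, Set.mem_iInter₂.2 fun v hv => hT2 v (Set.mem_iInter₂.1 hx v ((Set.Finite.mem_toFinset _).2 hv))⟩
  have hiff : ∀ U : Set V, U ∈ E ↔
      (U.Nonempty ∧ Maximal (fun W : Set V => (⋂ v ∈ W, φ '' T v).Nonempty) U) := by
    intro U
    constructor
    · intro hU
      refine ⟨hs.nonempty U hU, (hφ U).2 (hpt U hU), fun W hW hUW => ?_⟩
      obtain ⟨e, he, hWe⟩ := hcon W ((hs.nonempty U hU).mono hUW) ((hφ W).1 hW)
      have := hs.antichain U hU e he (hUW.trans hWe)
      rw [this]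
      exact hWe
    · rintro ⟨h1, h2, h3⟩
      obtain ⟨e, he, hUe⟩ := hcon U h1 ((hφ U).1 h2)
      have := h3 ((hφ e).2 (hpt e he)) hUe
      rw [Set.Subset.antisymm hUe this]
      exact he
  refine ⟨fun v => φ '' T v, fun v => ?_, hiff, fun _ U => ?_⟩
  · obtain ⟨a, b, c, h1, h2⟩ := hT1 v
    refine ⟨φ a, φ b, φ c, fun hcol => h1 ?_, ?_⟩
    · rw [collinear_iff_of_mem (p₀ := φ a) (by simp)] at hcol
      obtain ⟨w, hw⟩ := hcol
      rw [collinear_iff_of_mem (p₀ := a) (by simp)]
      refine ⟨φ.symm w, fun p hp => ?_⟩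
      obtain ⟨r, hr⟩ := hw (φ p) (by
        simp only [Set.mem_insert_iff, Set.mem_singleton_iff] at hp ⊢
        rcases hp with rfl | rfl | rfl <;> simp)
      refine ⟨r, φ.injective ?_⟩
      rw [hr]
      simp [vadd_eq_add]
    · show φ '' T v = _
      rw [h2, ← LinearEquiv.coe_coe, LinearMap.image_convexHull]
      simp [Set.image_insert_eq]
  · rw [hiff]
    refine ⟨fun h => h.2, fun h => ⟨?_, h⟩⟩
    by_contra hU
    rw [Set.not_nonempty_iff_eq_empty] at hU
    obtain ⟨v⟩ := hV
    obtain ⟨x, hx⟩ := hne v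
    have h4 := h.2 (y := {v}) ⟨φ x, Set.mem_iInter₂.2 fun w hw => by
      rw [Set.mem_singleton_iff] at hw
      subst hw
      exact ⟨x, hT2 _ hx, rfl⟩⟩ (by rw [hU]; exact Set.empty_subset _)
    rw [hU] at h4
    exact h4 (Set.mem_singleton v)

end Pool.Agent.Results.MP_425fdd_co.Full
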